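import Pool.Agent.MP_3312ae_al.HR.Asm.ProP
import Pool.Agent.MP_3312ae_al.HR.B.Herfort

set_option autoImplicit false

universe u

namespace Pool.Agent.Results.MP_3312ae_al.FiniteExponent

open Topology Filter

theorem small_of_dense {X : Type u} [TopologicalSpace X] [T2Space X] (s : Set X)
    (hs : s.Countable) (hd : Dense s) : Small.{0} X := by
  have : Countable s := hs.to_subtype
  obtain ⟨e, he⟩ := exists_injective_nat s
  let f : X → Filter ℕ := fun x => Filter.map e (Filter.comap ((↑) : s → X) (𝓝 x))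
  refine small_of_injective (f := f) fun x y hxy => ?_
  have h1 : Filter.comap ((↑) : s → X) (𝓝 x) = Filter.comap ((↑) : s → X) (𝓝 y) :=
    Filter.map_injective he hxy
  by_contra hne
  have h2 : 𝓝 x ⊓ 𝓝 y = ⊥ := disjoint_iff.mp (disjoint_nhds_nhds.mpr hne)
  have h3 : Filter.comap ((↑) : s → X) (𝓝 x) = ⊥ := by
    rw [← inf_idem (Filter.comap ((↑) : s → X) (𝓝 x))]
    conv_lhs => rw [h1]
    rw [← h1]
    conv_lhs => arg 2; rw [h1]
    rw [← Filter.comap_inf, h2, Filter.comap_bot]
  exact (hd.comap_val_nhds_neBot x).ne h3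

theorem main_small (G : Type u) [Group G] [TopologicalSpace G] [IsTopologicalGroup G]
    [CompactSpace G] [T2Space G] [Small.{0} G]
    (h : ∀ n : ℕ, ∃ g : G, 0 < orderOf g ∧ n ≤ orderOf g) : ∃ g : G, orderOf g = 0 := by
  let e : Shrink.{0} G ≃* G := Shrink.mulEquiv
  let φ : Shrink.{0} G ≃ₜ G := (Shrink.homeomorph G).symm
  have hφ : IsInducing e := φ.isInducing
  have : IsTopologicalGroup (Shrink.{0} G) := hφ.topologicalGroup e
  have : CompactSpace (Shrink.{0} G) := φ.symm.compactSpace
  have : T2Space (Shrink.{0} G) := φ.symm.t2Space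
  obtain ⟨g, hg⟩ := Pool.Agent.MP_3312ae_al.HR.main_of_herfort Pool.Agent.MP_3312ae_al.HR.herfort
    (Shrink.{0} G) fun n => by
      obtain ⟨g, hg⟩ := h n
      exact ⟨e.symm g, by rwa [MulEquiv.orderOf_eq]⟩
  exact ⟨e g, by rwa [MulEquiv.orderOf_eq]⟩

/-- Every compact Hausdorff group in which every element has finite order has finite exponent. -/
theorem result (G : Type u) [Group G] [TopologicalSpace G] [IsTopologicalGroup G]
    [CompactSpace G] [T2Space G] (hG : ∀ g : G, IsOfFinOrder g) :
    ∃ n : ℕ, 0 < n ∧ ∀ g : G, g ^ n = 1 := by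
  by_contra hne
  have h1 : ∀ n : ℕ, ∃ g : G, n ≤ orderOf g := by
    intro n
    by_contra hc
    push Not at hc
    refine hne ⟨n.factorial, n.factorial_pos, fun g => ?_⟩
    rw [← orderOf_dvd_iff_pow_eq_one]
    exact Nat.dvd_factorial (hG g).orderOf_pos (hc g).le
  choose g hg using h1
  let A := Subgroup.closure (Set.range g)
  let K := A.topologicalClosure
  have hK : IsClosed (K : Set G) := A.isClosed_topologicalClosure
  have : CompactSpace K := isCompact_iff_compactSpace.1 hK.isCompact
  have hA : (A : Set G).Countable := by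
    have : A = (FreeGroup.lift g).range := FreeGroup.range_lift_eq_closure.symm
    rw [this, MonoidHom.coe_range]
    exact Set.countable_range _
  have : Small.{0} K := by
    refine small_of_dense (((↑) : K → G) ⁻¹' (A : Set G))
      (hA.preimage_of_injOn Subtype.val_injective.injOn) ?_
    intro x
    rw [IsInducing.subtypeVal.closure_eq_preimage_closure_image]
    have hx : (x : G) ∈ closure (A : Set G) := x.2
    have hs : (A : Set G) ⊆ ((↑) : K → G) '' (((↑) : K → G) ⁻¹' (A : Set G)) :=
      fun y hy => ⟨⟨y, A.le_topologicalClosure hy⟩, hy, rfl⟩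
    exact closure_mono hs hx
  obtain ⟨x, hx⟩ := main_small K fun n =>
    ⟨⟨g n, A.le_topologicalClosure (Subgroup.subset_closure ⟨n, rfl⟩)⟩, by
      rw [Subgroup.orderOf_mk]; exact ⟨(hG _).orderOf_pos, hg n⟩⟩
  rw [← Subgroup.orderOf_coe] at hx
  exact (hG _).orderOf_pos.ne' hx

end Pool.Agent.Results.MP_3312ae_al.FiniteExponent
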